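import Mathlib
import Pool.Agent.H8.Cal

set_option autoImplicit false

namespace Pool.Agent.Results.MP_577fd0_gt.Caliber

open Set Filter Topology Function Pool.Agent.H8.Cal
open scoped Cardinal

theorem result (X : Type) [TopologicalSpace X] [T35Space X]
    (h : ∀ D : Set (X → ℝ), (∀ d ∈ D, Continuous d) →
        (∀ d ∈ D, ∃ U : Set (X → ℝ), IsOpen U ∧ U ∩ D = {d}) →
        ∀ f ∈ closure D, Continuous f →
          ∃ 𝒰 : Set (Set (X → ℝ)), 𝒰.Countable ∧ (∀ U ∈ 𝒰, IsOpen U ∧ f ∈ U) ∧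
            ⋂₀ 𝒰 ∩ {g | g ∈ closure D ∧ Continuous g} = {f}) :
    (∀ (ι : Type) (U : ι → Set X), (Cardinal.mk ι).IsRegular → Cardinal.aleph0 < Cardinal.mk ι →
      (∀ i, IsOpen (U i) ∧ (U i).Nonempty) → ∃ x, Cardinal.mk {i | x ∈ U i} = Cardinal.mk ι) ∧
    (∀ Y : Set X, Cardinal.mk Y ≤ Cardinal.aleph 1 →
      (∀ x, ∃ B ⊆ Y, B.Countable ∧ x ∈ closure B) → TopologicalSpace.SeparableSpace X) ∧
    (∀ A : Set (X → ℝ), A.Countable → (∀ f ∈ A, Continuous f) →
      (∀ f, Continuous f → f ∈ closure A) → TopologicalSpace.SeparableSpace X) := by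
  have key : ∀ (ι : Type), (#ι).IsRegular → ∃ r : ι → ι → Prop, IsWellOrder ι r ∧
      (∀ i, #{j | r j i} < #ι) ∧ ∀ S : Set ι, #S < #ι → ∃ i, ∀ j ∈ S, r j i := fun ι h1 => by
    obtain ⟨r, wo, hr⟩ := Cardinal.ord_eq ι
    have h2 : ∀ i, #{j | r j i} < #ι := fun i => Cardinal.card_typein_lt i hr
    refine ⟨r, wo, h2, fun S hS => by_contra fun hc => ?_⟩
    push Not at hc
    have h3 : #(⋃ j ∈ S, insert j {k | r k j} : Set ι) < #ι :=
      (Cardinal.card_biUnion_lt_iff_forall_of_isRegular h1 hS).2 fun j _ =>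
        Cardinal.mk_insert_le.trans_lt (Cardinal.add_lt_of_lt h1.aleph0_le (h2 j)
          (Cardinal.one_lt_aleph0.trans_le h1.aleph0_le))
    refine h3.ne ((congrArg (fun s : Set ι => #s) (eq_univ_of_forall fun i => ?_)).trans
      Cardinal.mk_univ)
    obtain ⟨j, h4, h5⟩ := hc i
    refine mem_biUnion h4 ?_
    rcases trichotomous_of r j i with h | h | h
    exacts [absurd h h5, Or.inl h.symm, Or.inr h]
  refine ⟨fun ι U h1 h2 h3 => by_contra fun hc => ?_, fun Y h1 h2 => by_contra fun hc => ?_,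
    sep h⟩
  · obtain ⟨r, wo, -, h4⟩ := key ι h1
    refine core h wo (fun i => ⋃ j ∈ {j | ¬ r j i}, U j) (fun i => ⟨isOpen_biUnion fun j _ =>
      (h3 j).1, (h3 i).2.mono (subset_biUnion_of_mem (u := U) (show ¬ r i i from irrefl i))⟩)
      (fun i j hij => biUnion_subset_biUnion_left fun k hk hki => hk (_root_.trans hki hij))
      fun Q hQ => ?_
    obtain ⟨i, hi⟩ := h4 (⋃ x ∈ Q, {j | x ∈ U j})
      ((Cardinal.card_biUnion_lt_iff_forall_of_isRegular h1
        ((Cardinal.le_aleph0_iff_set_countable.2 hQ).trans_lt h2)).2 fun x _ =>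
          (Cardinal.mk_set_le _).lt_of_ne fun e => hc ⟨x, e⟩)
    refine ⟨i, fun x hx h5 => ?_⟩
    obtain ⟨j, h6, h7⟩ := mem_iUnion₂.1 h5
    exact h6 (hi j (mem_biUnion hx h7))
  · choose B h3 h4 h5 using h2
    have h6 : ∀ S : Set X, S.Countable → (closure S)ᶜ.Nonempty := fun S hS =>
      nonempty_compl.2 fun e => hc ⟨S, hS, dense_iff_closure_eq.2 e⟩
    have h7 : #Y = Cardinal.aleph 1 := h1.antisymm (not_lt.1 fun h7 => by
      obtain ⟨x, hx⟩ := h6 Y ((Cardinal.countable_iff_lt_aleph_one Y).2 h7)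
      exact hx (closure_mono (h3 x) (h5 x)))
    obtain ⟨r, wo, h8, h9⟩ := key Y (h7 ▸ Cardinal.isRegular_aleph_one)
    rw [h7] at h8 h9
    refine core h wo (fun i => (closure (Subtype.val '' {j | r j i}))ᶜ) (fun i =>
      ⟨isClosed_closure.isOpen_compl,
        h6 _ (((Cardinal.countable_iff_lt_aleph_one _).2 (h8 i)).image _)⟩)
      (fun i j hij => compl_subset_compl.2 (closure_mono (image_mono fun k hk =>
        _root_.trans hk hij))) fun Q hQ => ?_
    obtain ⟨i, hi⟩ := h9 (Subtype.val ⁻¹' ⋃ x ∈ Q, B x) ((Cardinal.countable_iff_lt_aleph_one _).1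
      ((hQ.biUnion fun x _ => h4 x).preimage Subtype.val_injective))
    exact ⟨i, fun x hx h10 => h10 (closure_mono (fun y hy => show y ∈ Subtype.val '' {j | r j i}
      from ⟨⟨y, h3 x hy⟩, hi _ (mem_biUnion hx hy), rfl⟩) (h5 x))⟩

end Pool.Agent.Results.MP_577fd0_gt.Caliber
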